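import Pool.Agent.W661.RC.Stm3

set_option autoImplicit false

namespace Pool.Agent.W692.RC.LFT

open Matrix Filter Topology Pool.Agent.W661.RC
open scoped ComplexOrder
open scoped Matrix.Norms.L2Operator

noncomputable section

theorem mem_null {𝒰 : Ultrafilter ℕ} {d : ℕ → ℕ} (x : BSeq d) :
    x ∈ NullI 𝒰 d ↔ Tendsto (fun n => hs ((x : ∀ n, Mt (d n)) n) / d n) 𝒰 (𝓝 0) := by
  exact TwoSidedIdeal.mem_mk' _ _ _ _ _ _ x

theorem mkU_eq_iff {𝒰 : Ultrafilter ℕ} {d : ℕ → ℕ} (x y : BSeq d) :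
    mkU 𝒰 d x = mkU 𝒰 d y ↔
      Tendsto (fun n => hs ((x : ∀ n, Mt (d n)) n - (y : ∀ n, Mt (d n)) n) / d n) 𝒰 (𝓝 0) := by
  have h : mkU 𝒰 d x = mkU 𝒰 d y ↔ (NullI 𝒰 d).ringCon x y := RingCon.eq _
  rw [h, TwoSidedIdeal.rel_iff, mem_null]
  rfl

theorem mkU_surjective (𝒰 : Ultrafilter ℕ) (d : ℕ → ℕ) : Function.Surjective (mkU 𝒰 d) :=
  RingCon.mk'_surjective _

theorem main (hU : UniP) : LftP := by
  intro 𝒰 d y hd hy
  obtain ⟨x, rfl, h1, -⟩ := hy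
  choose u hu using fun n => hU (d n) ((x : ∀ n, Mt (d n)) n)
  refine ⟨u, ?_⟩
  rw [← map_mul, ← map_one (mkU 𝒰 d), mkU_eq_iff] at h1
  symm
  rw [mkU_eq_iff]
  refine squeeze_zero (fun n => ?_) (fun n => ?_) h1
  · exact div_nonneg (hs_nonneg' _) (Nat.cast_nonneg _)
  · exact div_le_div_of_nonneg_right (hu n) (Nat.cast_nonneg _)

end

end Pool.Agent.W692.RC.LFT
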